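import Mathlib

/-!
# Edge boundaries with respect to generating sets: no base larger than `2` works

Let `q` be odd, `G = (ℤ/2)^n × ℤ/q`, `S = {(e_i, 1)}`. Then `G` has rank `n`, `S` generates `G`
and each element of `S` has order `2 q`. For `A = {(x, y) : x_i = 0 for i ≥ k}` the edge boundary
is at most `(n - k) |A|` and `|A| = 2 ^ k q`.
-/

set_option autoImplicit false

namespace Pool.Agent.Results.MP_039f74_co.EveryBaseAboveTwo

open Finset

/-- The edge boundary `∂_S(A)`: the number of pairs `(a, s) ∈ A × S` with `a + s ∉ A`. -/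
def edgeBoundary {G : Type*} [AddCommGroup G] [DecidableEq G] (S A : Finset G) : ℕ :=
  ((A ×ˢ S).filter fun p => p.1 + p.2 ∉ A).card

section construction

/-- the generator `(e_i, 1)` -/
def gen (n q : ℕ) (i : Fin n) : (Fin n → ZMod 2) × ZMod q := (Pi.single i 1, 1)

/-- extension by zero of a vector of length `k` -/
def ext0 {n k : ℕ} (x : Fin k → ZMod 2) : Fin n → ZMod 2 :=
  fun i => if h : i.1 < k then x ⟨i.1, h⟩ else 0

variable {n q : ℕ}

theorem gen_injective : Function.Injective (gen n q) := by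
  intro i j h
  have h1 : (Pi.single i 1 : Fin n → ZMod 2) = Pi.single j 1 := congrArg Prod.fst h
  by_contra hij
  have := congrFun h1 i
  simp [Pi.single_apply, hij] at this

theorem gen_order (hq : q % 2 = 1) (i : Fin n) : addOrderOf (gen n q i) = 2 * q := by
  have hq0 : NeZero q := ⟨by omega⟩
  rw [Prod.addOrderOf]
  have h1 : addOrderOf (gen n q i).1 = 2 := by
    refine addOrderOf_eq_prime ?_ ?_
    · funext j
      show (2 : ℕ) • ((Pi.single i 1 : Fin n → ZMod 2) j) = 0
      rw [nsmul_eq_mul]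
      have : ((2 : ℕ) : ZMod 2) = 0 := by decide
      rw [this, zero_mul]
    · intro h
      have := congrFun h i
      simp [gen] at this
  have h2 : addOrderOf (gen n q i).2 = q := by
    show addOrderOf (1 : ZMod q) = q
    exact ZMod.addOrderOf_one q
  rw [h1, h2]
  exact Nat.Coprime.lcm_eq_mul (Nat.coprime_two_left.2 (Nat.odd_iff.2 hq))

theorem gen_closure (hn : 0 < n) (hq : q % 2 = 1) :
    AddSubgroup.closure ((univ.image (gen n q) : Finset _) : Set ((Fin n → ZMod 2) × ZMod q)) =
      ⊤ := by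
  classical
  set C := AddSubgroup.closure ((univ.image (gen n q) : Finset _) :
    Set ((Fin n → ZMod 2) × ZMod q)) with hC
  have hgen : ∀ i, gen n q i ∈ C := fun i => AddSubgroup.subset_closure (by simp)
  have hq0 : NeZero q := ⟨by omega⟩
  obtain ⟨r, hr⟩ : ∃ r, q = 2 * r + 1 := ⟨q / 2, by omega⟩
  have htwo : ∀ x : Fin n → ZMod 2, (2 : ℕ) • x = 0 := by
    intro x
    funext j
    show (2 : ℕ) • x j = 0
    rw [nsmul_eq_mul]
    have : ((2 : ℕ) : ZMod 2) = 0 := by decide
    rw [this, zero_mul]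
  have h01 : ((0, 1) : (Fin n → ZMod 2) × ZMod q) ∈ C := by
    have h := C.nsmul_mem (C.nsmul_mem (hgen ⟨0, hn⟩) 2) (r + 1)
    have e : (r + 1) • ((2 : ℕ) • gen n q ⟨0, hn⟩) = (0, 1) := by
      refine Prod.ext ?_ ?_
      · show (r + 1) • ((2 : ℕ) • (gen n q ⟨0, hn⟩).1) = 0
        rw [htwo, smul_zero]
      · show (r + 1) • ((2 : ℕ) • (1 : ZMod q)) = 1
        rw [nsmul_eq_mul, nsmul_eq_mul, mul_one]
        have h0 : ((q : ℕ) : ZMod q) = 0 := ZMod.natCast_self q
        rw [← Nat.cast_mul, show (r + 1) * 2 = q + 1 by omega, Nat.cast_add, h0, Nat.cast_one,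
          zero_add]
    rwa [e] at h
  have h0y : ∀ y : ZMod q, ((0, y) : (Fin n → ZMod 2) × ZMod q) ∈ C := by
    intro y
    have h := C.nsmul_mem h01 y.val
    have e : y.val • ((0, 1) : (Fin n → ZMod 2) × ZMod q) = (0, y) := by
      refine Prod.ext ?_ ?_
      · show y.val • (0 : Fin n → ZMod 2) = 0
        rw [smul_zero]
      · show y.val • (1 : ZMod q) = y
        rw [nsmul_eq_mul, mul_one, ZMod.natCast_zmod_val]
    rwa [e] at h
  have he0 : ∀ i, ((Pi.single i 1, 0) : (Fin n → ZMod 2) × ZMod q) ∈ C := by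
    intro i
    have h := C.sub_mem (hgen i) h01
    have e : gen n q i - (0, 1) = (Pi.single i 1, 0) := by
      refine Prod.ext ?_ ?_
      · show (Pi.single i 1 : Fin n → ZMod 2) - 0 = _
        rw [sub_zero]
      · show (1 : ZMod q) - 1 = 0
        rw [sub_self]
    rwa [e] at h
  have hx0 : ∀ x : Fin n → ZMod 2, ((x, 0) : (Fin n → ZMod 2) × ZMod q) ∈ C := by
    intro x
    have e : ((x, 0) : (Fin n → ZMod 2) × ZMod q) =
        ∑ i, (x i).val • ((Pi.single i 1, 0) : (Fin n → ZMod 2) × ZMod q) := by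
      refine Prod.ext ?_ ?_
      · rw [Prod.fst_sum]
        funext j
        simp only [Prod.smul_mk, Finset.sum_apply, Pi.smul_apply, Pi.single_apply]
        simp
      · rw [Prod.snd_sum]
        simp
    rw [e]
    exact C.sum_mem fun i _ => C.nsmul_mem (he0 i) _
  refine (eq_top_iff).2 fun p _ => ?_
  have e : p = (p.1, 0) + (0, p.2) := by
    refine Prod.ext ?_ ?_ <;> simp
  rw [e]
  exact C.add_mem (hx0 _) (h0y _)

theorem gen_rank (hn : 0 < n) (hq : q % 2 = 1) [NeZero q] :
    AddGroup.rank ((Fin n → ZMod 2) × ZMod q) = n := by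
  classical
  refine le_antisymm ?_ ?_
  · have h := AddGroup.rank_le (gen_closure (n := n) hn hq)
    rwa [Finset.card_image_of_injective _ gen_injective, Finset.card_univ, Fintype.card_fin] at h
  · obtain ⟨T, hT, hcl⟩ := AddGroup.rank_spec ((Fin n → ZMod 2) × ZMod q)
    rw [← hT]
    have hspan : Submodule.span (ZMod 2) ((T.image Prod.fst : Finset (Fin n → ZMod 2)) :
        Set (Fin n → ZMod 2)) = ⊤ := by
      refine eq_top_iff.2 fun x _ => ?_
      have hx : ((x, 0) : (Fin n → ZMod 2) × ZMod q) ∈ AddSubgroup.closure (T : Set _) := by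
        rw [hcl]; exact AddSubgroup.mem_top _
      have hle : AddSubgroup.closure (T : Set ((Fin n → ZMod 2) × ZMod q)) ≤
          (Submodule.span (ZMod 2) ((T.image Prod.fst : Finset (Fin n → ZMod 2)) :
            Set (Fin n → ZMod 2))).toAddSubgroup.comap
            (AddMonoidHom.fst (Fin n → ZMod 2) (ZMod q)) := by
        rw [AddSubgroup.closure_le]
        intro t ht
        show t.1 ∈ Submodule.span (ZMod 2) _
        exact Submodule.subset_span (by
          simp only [Finset.coe_image, Set.mem_image, Finset.mem_coe]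
          exact ⟨t, ht, rfl⟩)
      exact hle hx
    have h1 := finrank_span_finset_le_card (R := ZMod 2) (T.image Prod.fst)
    rw [Set.finrank, hspan, finrank_top, Module.finrank_fin_fun] at h1
    exact h1.trans Finset.card_image_le

theorem ext0_single {k : ℕ} (i : Fin n) (hi : i.1 < k) :
    ext0 (n := n) (Pi.single (⟨i.1, hi⟩ : Fin k) 1) = Pi.single i 1 := by
  funext j
  simp only [ext0, Pi.single_apply]
  by_cases h : j.1 < k
  · simp only [h, dif_pos]
    by_cases hij : j = i
    · subst hij; simp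
    · have : ¬ ((⟨j.1, h⟩ : Fin k) = ⟨i.1, hi⟩) := by
        intro h'
        exact hij (Fin.ext (by simpa using h'))
      simp [this, hij]
  · have hij : j ≠ i := by
      rintro rfl
      exact h hi
    simp [h, hij]

theorem ext0_add {k : ℕ} (x y : Fin k → ZMod 2) :
    ext0 (n := n) (x + y) = ext0 x + ext0 y := by
  funext j
  simp only [ext0, Pi.add_apply]
  by_cases h : j.1 < k <;> simp [h]

/-- the set `A` -/
def setA (n q k : ℕ) [NeZero q] : Finset ((Fin n → ZMod 2) × ZMod q) :=
  (univ : Finset ((Fin k → ZMod 2) × ZMod q)).image fun p => (ext0 p.1, p.2)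

theorem card_setA (k : ℕ) [NeZero q] : (setA n q k).card ≤ 2 ^ k * q := by
  refine Finset.card_image_le.trans (le_of_eq ?_)
  rw [Finset.card_univ, Fintype.card_prod, ZMod.card]
  simp

theorem add_gen_mem {k : ℕ} [NeZero q] (i : Fin n) (hi : i.1 < k)
    {a : (Fin n → ZMod 2) × ZMod q} (ha : a ∈ setA n q k) : a + gen n q i ∈ setA n q k := by
  obtain ⟨p, -, rfl⟩ := Finset.mem_image.1 ha
  refine Finset.mem_image.2 ⟨(p.1 + Pi.single ⟨i.1, hi⟩ 1, p.2 + 1), Finset.mem_univ _, ?_⟩
  refine Prod.ext ?_ rfl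
  show ext0 (p.1 + Pi.single ⟨i.1, hi⟩ 1) = ext0 p.1 + Pi.single i 1
  rw [ext0_add, ext0_single i hi]

theorem bdry_le (k : ℕ) (hk : k ≤ n) [NeZero q] :
    edgeBoundary (univ.image (gen n q)) (setA n q k) ≤ (n - k) * (setA n q k).card := by
  classical
  have hsub : ((setA n q k ×ˢ univ.image (gen n q)).filter fun p => p.1 + p.2 ∉ setA n q k) ⊆
      setA n q k ×ˢ ((univ.filter fun i : Fin n => k ≤ i.1).image (gen n q)) := by
    rintro ⟨a, s⟩ h
    simp only [Finset.mem_filter, Finset.mem_product, Finset.mem_image, Finset.mem_univ,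
      true_and] at h ⊢
    obtain ⟨⟨ha, i, rfl⟩, hn⟩ := h
    refine ⟨ha, i, ?_, rfl⟩
    by_contra hi
    exact hn (add_gen_mem i (by omega) ha)
  refine (Finset.card_le_card hsub).trans ?_
  rw [Finset.card_product, mul_comm]
  refine Nat.mul_le_mul_right _ (Finset.card_image_le.trans ?_)
  have hc : (univ.filter fun i : Fin n => k ≤ i.1).card + (univ.filter fun i : Fin n => i.1 < k).card
      = n := by
    have := Finset.card_filter_add_card_filter_not (s := (univ : Finset (Fin n)))
      (fun i => k ≤ i.1)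
    simpa using this
  have hlow : k ≤ (univ.filter fun i : Fin n => i.1 < k).card := by
    have h1 : ((univ : Finset (Fin k)).image (Fin.castLE hk)).card = k := by
      rw [Finset.card_image_of_injective _ (Fin.castLE_injective hk)]
      simp
    calc k = ((univ : Finset (Fin k)).image (Fin.castLE hk)).card := h1.symm
      _ ≤ _ := Finset.card_le_card (by
        intro i hi
        obtain ⟨j, -, rfl⟩ := Finset.mem_image.1 hi
        simp)
  omega

end construction

/-- **Q1 is false, with every base `b > 2` in place of `4` and for every `γ`.**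
For every real `b > 2` and every `γ ∈ (0, 1]` there are a finite abelian group `G`, a generating
set `S` of `G` with smallest order `d` of an element, and a nonempty `A ⊆ G` with
`∂_S(A) ≤ (1 - γ) rk(G) |A|` and `|A| < b ^ ((1 - 1/d) γ rk(G))`. -/
theorem result (b γ : ℝ) (hb : 2 < b) (hγ0 : 0 < γ) (hγ1 : γ ≤ 1) :
    ∃ (G : Type) (_ : AddCommGroup G) (_ : Finite G) (_ : DecidableEq G) (S A : Finset G) (d : ℕ),
      AddSubgroup.closure (S : Set G) = ⊤ ∧
      IsLeast {m | ∃ s ∈ S, addOrderOf s = m} d ∧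
      A.Nonempty ∧
      (edgeBoundary S A : ℝ) ≤ (1 - γ) * AddGroup.rank G * A.card ∧
      (A.card : ℝ) < b ^ ((1 - 1 / (d : ℝ)) * γ * AddGroup.rank G) := by
  classical
  have hl2 : 0 < Real.log 2 := Real.log_pos (by norm_num)
  have hlb : Real.log 2 < Real.log b := Real.log_lt_log (by norm_num) hb
  -- choice of `q`
  obtain ⟨r, hr⟩ := exists_nat_gt (Real.log b / (Real.log b - Real.log 2))
  set q : ℕ := 2 * r + 1 with hqdef
  have hq : q % 2 = 1 := by omega
  have : NeZero q := ⟨by omega⟩
  have hq0 : (0 : ℝ) < q := by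
    have : 0 < q := by omega
    exact_mod_cast this
  have hgap : 0 < (1 - 1 / (2 * (q : ℝ))) * Real.log b - Real.log 2 := by
    have h1 : Real.log b < r * (Real.log b - Real.log 2) := by
      rwa [div_lt_iff₀ (by linarith)] at hr
    have h2 : (r : ℝ) ≤ 2 * q := by
      have : r ≤ 2 * q := by omega
      exact_mod_cast this
    have h3 : Real.log b < (2 * q) * (Real.log b - Real.log 2) :=
      lt_of_lt_of_le h1 (mul_le_mul_of_nonneg_right h2 (by linarith))
    have h4 : Real.log b / (2 * q) < Real.log b - Real.log 2 := by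
      rw [div_lt_iff₀ (by positivity)]
      linarith
    have h5 : (1 - 1 / (2 * (q : ℝ))) * Real.log b = Real.log b - Real.log b / (2 * q) := by ring
    rw [h5]
    linarith
  set δ := (1 - 1 / (2 * (q : ℝ))) * Real.log b - Real.log 2 with hδ
  -- choice of `n`
  obtain ⟨n0, hn0⟩ := exists_nat_gt ((Real.log q + Real.log 2) / (γ * δ))
  set n : ℕ := n0 + 1 with hndef
  have hn : 0 < n := by omega
  have hn1 : Real.log q + Real.log 2 < γ * δ * n := by
    have h1 : Real.log q + Real.log 2 < n0 * (γ * δ) := by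
      rwa [div_lt_iff₀ (by positivity)] at hn0
    have h2 : (n : ℝ) = n0 + 1 := by rw [hndef]; push_cast; ring
    rw [h2]
    have : 0 < γ * δ := by positivity
    nlinarith
  -- choice of `k`
  set k : ℕ := ⌈γ * n⌉₊ with hkdef
  have hk1 : γ * n ≤ k := Nat.le_ceil _
  have hk2 : (k : ℝ) < γ * n + 1 := Nat.ceil_lt_add_one (by positivity)
  have hkn : k ≤ n := by
    refine Nat.ceil_le.2 ?_
    have : (0 : ℝ) ≤ n := Nat.cast_nonneg n
    nlinarith
  have hrank : AddGroup.rank ((Fin n → ZMod 2) × ZMod q) = n := gen_rank hn hq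
  refine ⟨(Fin n → ZMod 2) × ZMod q, inferInstance, inferInstance, inferInstance,
    univ.image (gen n q), setA n q k, 2 * q, gen_closure hn hq, ?_, ?_, ?_, ?_⟩
  · refine ⟨⟨gen n q ⟨0, hn⟩, by simp, gen_order hq _⟩, ?_⟩
    rintro m ⟨s, hs, rfl⟩
    obtain ⟨i, -, rfl⟩ := Finset.mem_image.1 hs
    rw [gen_order hq]
  · exact ⟨_, Finset.mem_image.2 ⟨0, Finset.mem_univ _, rfl⟩⟩
  · rw [hrank]
    have h1 : (edgeBoundary (univ.image (gen n q)) (setA n q k) : ℝ) ≤
        ((n - k : ℕ) : ℝ) * (setA n q k).card := by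
      exact_mod_cast bdry_le k hkn
    refine h1.trans (mul_le_mul_of_nonneg_right ?_ (Nat.cast_nonneg _))
    rw [Nat.cast_sub hkn]
    linarith
  · rw [hrank]
    have hb0 : 0 < b := by linarith
    have hc : ((setA n q k).card : ℝ) ≤ 2 ^ k * q := by exact_mod_cast card_setA k
    refine lt_of_le_of_lt hc ?_
    rw [← Real.log_lt_log_iff (by positivity) (Real.rpow_pos_of_pos hb0 _), Real.log_rpow hb0,
      Real.log_mul (by positivity) (by positivity), Real.log_pow]
    have h2 : ((2 * q : ℕ) : ℝ) = 2 * q := by push_cast; ring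
    rw [h2]
    have h3 : (k : ℝ) * Real.log 2 ≤ (γ * n + 1) * Real.log 2 :=
      mul_le_mul_of_nonneg_right hk2.le hl2.le
    have h4 : (1 - 1 / (2 * (q : ℝ))) * γ * n * Real.log b = γ * n * (δ + Real.log 2) := by
      rw [hδ]; ring
    rw [h4]
    nlinarith

end Pool.Agent.Results.MP_039f74_co.EveryBaseAboveTwo
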